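import Mathlib
import Pool.Agent.Helper584_RM.Final
import Pool.Agent.Helper584_RM.ForceCov

set_option autoImplicit false

open Pool.Agent.Helper584.RM

namespace Pool.Agent.Results.MP_605315_lc.RandomModel

/-- ZFC does not prove that there is a non-separable compact space which supports a measure and has a
continuous map to the Cantor set with scattered fibres.

* First part: there are a (nonempty) forcing notion `P` and a linear order `W` such that every
  condition of `P` forces the sentence `Phi P W` of the forcing language of `P`. (`P` is the set of
  the measurable sets of positive measure for the product of `𝔠⁺` fair coins, that is, the forcing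
  notion adding `𝔠⁺` random reals, and `W` is the well-ordered set `𝔠⁺`.) No hypothesis is made.
* Second part: for the trivial forcing notion `Phi` has its ordinary meaning, spelled out in `Phi₀`:
  `W` is a well-ordered set with the symmetry property `Sym₀` and the covering property `Cov₀`.
* Third part: if some `W` satisfies `Phi₀`, then the statement of the problem (the frozen statement
  `S14781`) is false, that is, every compact Hausdorff space supporting a measure, with a continuous
  map to the Cantor set all of whose fibres are scattered, is separable. -/
theorem result :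
    (∃ (P W : Type) (_ : Preorder P) (_ : LinearOrder W), Nonempty P ∧ ∀ p : P, p ∈ Phi P W) ∧
    (∀ (W : Type) [LinearOrder W], PUnit.unit ∈ Phi PUnit.{1} W ↔ Phi₀ W) ∧
    ((∃ (W : Type) (_ : LinearOrder W), Phi₀ W) →
      ¬ ∃ (K : Type) (_ : TopologicalSpace K) (_ : CompactSpace K) (_ : T2Space K)
        (_ : MeasurableSpace K) (_ : BorelSpace K) (μ : MeasureTheory.Measure K),
        MeasureTheory.IsProbabilityMeasure μ ∧ μ.IsOpenPosMeasure ∧ μ.Regular ∧
        ¬ TopologicalSpace.SeparableSpace K ∧
        ∃ f : K → (ℕ → Bool), Continuous f ∧
          ∀ t : ℕ → Bool, ∀ A : Set K, A ⊆ f ⁻¹' {t} → A.Nonempty →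
            ∃ x ∈ A, ∃ U : Set K, IsOpen U ∧ U ∩ A = {x}) := by
  refine ⟨exists_forcing, fun W _ => phi_iff W, ?_⟩
  rintro ⟨W, _, hW⟩ ⟨K, _, _, _, _, _, μ, _, _, _, hns, f, hf, hsc⟩
  exact hns (separable_of_phi hW μ hf hsc)

end Pool.Agent.Results.MP_605315_lc.RandomModel
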